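import Pool.Agent.Helper28.T3.StC

/-! # Project T3 (MP_1d384c_nt): module GODq (the 1944 classes modulo 18) -/

set_option autoImplicit false

namespace Pool.Agent.Helper26.T3

open Pool.Agent.Helper28.T3

private def E9 (a b c d : ℕ) : ℕ :=
  4 * (b * b + 8 * (a * c)) * (c * c + 8 * (b * d)) +
    8 * ((b * c + 8 * (a * d)) * (b * c + 8 * (a * d)))

private def S9 (r : ℕ) : Finset (Fin 9 × Fin 9 × Fin 9 × Fin 9) :=
  Finset.univ.filter fun t => E9 t.1.val t.2.1.val t.2.2.1.val t.2.2.2.val % 9 = r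

private def S2 : Finset (Fin 2 × Fin 2 × Fin 2 × Fin 2) :=
  Finset.univ.filter fun t => (t.2.1.val * t.2.1.val + t.1.val * t.2.2.1.val) % 2 = 1 ∧
    (t.2.1.val * t.2.2.1.val + t.1.val * t.2.2.2.val) % 2 = 1 ∧
    (t.2.2.1.val * t.2.2.1.val + t.2.1.val * t.2.2.2.val) % 2 = 1

private theorem card_S2 : S2.card = 3 := by
  unfold S2
  decide +kernel

private theorem card_S9_3 : (S9 3).card = 648 := by
  unfold S9
  decide +kernel

private theorem card_S9_6 : (S9 6).card = 648 := by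
  unfold S9
  decide +kernel

private theorem toNat_cast (a : ℤ) : (((a % 9).toNat : ℕ) : ZMod 9) = (a : ZMod 9) := by
  have h1 : (((a % 9).toNat : ℕ) : ℤ) = a % 9 :=
    Int.toNat_of_nonneg (Int.emod_nonneg a (by norm_num))
  have h2 : ((((a % 9).toNat : ℕ) : ℤ) : ZMod 9) = ((a % 9 : ℤ) : ZMod 9) := by rw [h1]
  rw [Int.cast_natCast] at h2
  rw [h2]
  exact (ZMod.intCast_eq_intCast_iff' (a % 9) a 9).2 (by push_cast; omega)

private theorem mem9 (a b c d : ℤ) (r : ℤ) (r9 : ℕ) (hr9 : r9 < 9) (hr : r % 9 = r9)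
    (h : cD a b c d % 72 = r) :
    E9 (a % 9).toNat (b % 9).toNat (c % 9).toNat (d % 9).toNat % 9 = r9 := by
  have h1 : ((E9 (a % 9).toNat (b % 9).toNat (c % 9).toNat (d % 9).toNat : ℕ) : ZMod 9) =
      ((cD a b c d : ℤ) : ZMod 9) := by
    unfold E9 cD cA cB
    push_cast
    rw [toNat_cast, toNat_cast, toNat_cast, toNat_cast]
    have h8 : (8 : ZMod 9) = -1 := by decide
    rw [h8]
    ring
  have h2 : ((cD a b c d : ℤ) : ZMod 9) = ((r9 : ℕ) : ZMod 9) := by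
    have h3 : ((cD a b c d : ℤ) : ZMod 9) = (((r9 : ℕ) : ℤ) : ZMod 9) := by
      refine (ZMod.intCast_eq_intCast_iff' _ _ 9).2 ?_
      push_cast
      omega
    rw [h3, Int.cast_natCast]
  rw [h2] at h1
  have h3 := (ZMod.natCast_eq_natCast_iff' _ _ 9).1 h1
  rw [h3]
  exact Nat.mod_eq_of_lt hr9

/-- the three covariant coefficients are odd -/
private theorem par (A B C : ℤ) (r : ℤ) (hr : r = 3 ∨ r = 51) (h : (4 * A * C - B ^ 2) % 72 = r) :
    A % 2 = 1 ∧ B % 2 = 1 ∧ C % 2 = 1 := by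
  have hq : 4 * (A * C) - B ^ 2 = 72 * ((4 * A * C - B ^ 2) / 72) + r := by
    have := Int.emod_add_mul_ediv (4 * A * C - B ^ 2) 72
    rw [h] at this
    linarith
  set q := (4 * A * C - B ^ 2) / 72 with hqd
  have hB : B % 2 = 1 := by
    rcases Int.emod_two_eq_zero_or_one B with h0 | h0
    · exfalso
      obtain ⟨s, hs⟩ : ∃ s : ℤ, B = 2 * s := ⟨B / 2, by omega⟩
      rw [hs] at hq
      have h1 : 4 * (A * C) - 4 * (s * s) = 72 * q + r := by linarith
      omega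
    · exact h0
  have hAC : (A * C) % 2 = 1 := by
    obtain ⟨s, hs⟩ : ∃ s : ℤ, B = 2 * s + 1 := ⟨B / 2, by omega⟩
    have h1 : 4 * (A * C) = 72 * q + r + 1 + 4 * (s * (s + 1)) := by
      rw [hs] at hq
      linarith
    have h2 : Even (s * (s + 1)) := Int.even_mul_succ_self s
    obtain ⟨u, hu⟩ := h2
    omega
  have hodd : Odd (A * C) := Int.odd_iff.mpr hAC
  rw [Int.odd_mul, Int.odd_iff, Int.odd_iff] at hodd
  exact ⟨hodd.1, hB, hodd.2⟩

private theorem par_sub (x y : ℤ) (h : (x - y) % 2 = 1) : (x + y) % 2 = 1 := by omega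

private theorem mod2 (x y z w : ℤ) (h : (x * y - z * w) % 2 = 1) :
    (((x % 2).toNat * (y % 2).toNat + (z % 2).toNat * (w % 2).toNat : ℕ)) % 2 = 1 := by
  have h1 : ∀ n : ℤ, (((n % 2).toNat : ℕ) : ℤ) = n % 2 := fun n =>
    Int.toNat_of_nonneg (Int.emod_nonneg n (by norm_num))
  have h2 : ((((x % 2).toNat * (y % 2).toNat + (z % 2).toNat * (w % 2).toNat : ℕ)) : ℤ) % 2 =
      1 := by
    push_cast
    rw [h1, h1, h1, h1, Int.add_emod, ← Int.mul_emod, ← Int.mul_emod, ← Int.add_emod]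
    exact par_sub _ _ h
  exact_mod_cast h2

/-- the Chinese remainder map -/
private def crt (u : Fin 2) (v : Fin 9) : ℤ := (9 * (u.val : ℤ) + 10 * (v.val : ℤ)) % 18

private theorem crt_eq (a : ℤ) (h2 : (a % 2).toNat < 2) (h9 : (a % 9).toNat < 9) :
    crt ⟨(a % 2).toNat, h2⟩ ⟨(a % 9).toNat, h9⟩ = a % 18 := by
  unfold crt
  simp only
  omega

theorem hGODq : StGODq := by
  intro r hr
  have hcard : ∃ r9 : ℕ, r9 < 9 ∧ r % 9 = r9 ∧ (S9 r9).card = 648 := by
    rcases hr with rfl | rfl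
    · exact ⟨3, by norm_num, by norm_num, card_S9_3⟩
    · exact ⟨6, by norm_num, by norm_num, card_S9_6⟩
  obtain ⟨r9, h9lt, hr9, hc9⟩ := hcard
  refine ⟨(S2 ×ˢ S9 r9).image fun p => (crt p.1.1 p.2.1, crt p.1.2.1 p.2.2.1,
    crt p.1.2.2.1 p.2.2.2.1, crt p.1.2.2.2 p.2.2.2.2), ?_, ?_⟩
  · refine Finset.card_image_le.trans ?_
    rw [Finset.card_product, card_S2, hc9]
  · intro a b c d hD
    have hlt2 : ∀ n : ℤ, (n % 2).toNat < 2 := fun n => by omega
    have hlt9 : ∀ n : ℤ, (n % 9).toNat < 9 := fun n => by omega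
    rw [Finset.mem_image]
    refine ⟨((⟨(a % 2).toNat, hlt2 a⟩, ⟨(b % 2).toNat, hlt2 b⟩, ⟨(c % 2).toNat, hlt2 c⟩,
      ⟨(d % 2).toNat, hlt2 d⟩), (⟨(a % 9).toNat, hlt9 a⟩, ⟨(b % 9).toNat, hlt9 b⟩,
      ⟨(c % 9).toNat, hlt9 c⟩, ⟨(d % 9).toNat, hlt9 d⟩)), ?_, ?_⟩
    · rw [Finset.mem_product]
      refine ⟨?_, ?_⟩
      · unfold S2
        rw [Finset.mem_filter]
        have hD' := hD
        unfold cD at hD'
        obtain ⟨h1, h2, h3⟩ := par _ _ _ r hr hD'
        unfold cA at h1 h3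
        unfold cB at h2
        refine ⟨Finset.mem_univ _, ?_, ?_, ?_⟩
        · exact mod2 b b a c (by rw [← pow_two]; exact h1)
        · exact mod2 b c a d h2
        · have h4 := mod2 c c b d (by rw [← pow_two, mul_comm b d]; exact h3)
          exact h4
      · unfold S9
        rw [Finset.mem_filter]
        exact ⟨Finset.mem_univ _, mem9 a b c d r r9 h9lt hr9 hD⟩
    · simp only [crt_eq]

end Pool.Agent.Helper26.T3
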