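import Pool.Agent.Helper14.T3.StL

/-! # Project T3 (MP_1d384c_nt): module Sedge -/

set_option autoImplicit false

namespace Pool.Agent.Helper26.T3

open Pool.Agent.Helper14.T3 Pool.Agent.Helper14.W3 Pool.Agent.Helper78.W3

private theorem th_eq (t k : ℤ) (h : t ^ 2 - 1 = 3 * k) : th t = (k : ZMod 3) := by
  unfold th
  rw [h, Int.mul_ediv_cancel_left _ (by norm_num)]

private theorem three_eq : (3 : ZMod 3) = 0 := by decide

private theorem unit3 : ∀ x y : ZMod 3, x * y = 1 → x = y ∧ x ^ 2 = 1 ∧ y ^ 2 = 1 := by decide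

private theorem base (hEdgi : Edgi) (a c P Q w : ℤ) (h : a * Q - 3 * c * P = 1)
    (hw : a - Q = 3 * w) :
    (IZ c a : ZMod 3) - (IZ P Q : ZMod 3) = -((w : ZMod 3) * ((P : ZMod 3) + c)) := by
  have h1 := hEdgi a c P Q h
  rw [hw] at h1
  have h2 : 2 * (IZ c a * Q ^ 2 - IZ P Q * a ^ 2) = a * Q * w * (P + c) := by
    have h3 : (3 : ℤ) * (2 * (IZ c a * Q ^ 2 - IZ P Q * a ^ 2)) =
        3 * (a * Q * w * (P + c)) := by linear_combination h1
    exact mul_left_cancel₀ (by norm_num) h3
  have h4 : (2 : ZMod 3) * ((IZ c a : ZMod 3) * (Q : ZMod 3) ^ 2 -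
      (IZ P Q : ZMod 3) * (a : ZMod 3) ^ 2) =
      (a : ZMod 3) * Q * w * ((P : ZMod 3) + c) := by
    have := congrArg (fun z : ℤ => (z : ZMod 3)) h2
    push_cast at this
    exact this
  have h5 : (a : ZMod 3) * Q = 1 := by
    have := congrArg (fun z : ℤ => (z : ZMod 3)) h
    push_cast at this
    rw [three_eq] at this
    linear_combination this
  obtain ⟨-, h6, h7⟩ := unit3 _ _ h5
  rw [h6, h7, h5, mul_one, mul_one, one_mul] at h4
  have h3 := three_eq
  linear_combination -h4 + ((IZ c a : ZMod 3) - (IZ P Q : ZMod 3)) * h3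

theorem hSedge (hEdgi : Edgi) : Sedge := by
  intro a b c d h
  have h3 := three_eq
  have had : (a : ZMod 3) * d = 1 := by
    have := congrArg (fun z : ℤ => (z : ZMod 3)) h
    push_cast at this
    have h9 : (9 : ZMod 3) = 0 := by decide
    rw [h9] at this
    linear_combination this
  obtain ⟨hadeq, ha2, hd2⟩ := unit3 _ _ had
  -- the quotient of the difference
  have hdiv : (3 : ℤ) ∣ a - d := by
    have h0 : (((a - d : ℤ)) : ZMod 3) = 0 := by
      push_cast
      rw [hadeq, sub_self]
    exact_mod_cast (ZMod.intCast_zmod_eq_zero_iff_dvd (a - d) 3).1 h0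
  obtain ⟨w, hw⟩ := hdiv
  have hdiv2 : (3 : ℤ) ∣ a ^ 2 - 1 := by
    have h0 : (((a ^ 2 - 1 : ℤ)) : ZMod 3) = 0 := by
      push_cast
      rw [ha2, sub_self]
    exact_mod_cast (ZMod.intCast_zmod_eq_zero_iff_dvd (a ^ 2 - 1) 3).1 h0
  obtain ⟨α, hα⟩ := hdiv2
  have haw : a * w = α - 3 * (b * c) := by
    have h1 : (3 : ℤ) * (a * w) = 3 * (α - 3 * (b * c)) := by
      linear_combination (-a) * hw + hα - h
    exact mul_left_cancel₀ (by norm_num) h1
  have hth : th a = (α : ZMod 3) := th_eq a α hα
  have hwz : (a : ZMod 3) * w = α := by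
    have := congrArg (fun z : ℤ => (z : ZMod 3)) haw
    push_cast at this
    rw [h3] at this
    linear_combination this
  have hw' : (w : ZMod 3) = (a : ZMod 3) * α := by
    linear_combination (a : ZMod 3) * hwz - (w : ZMod 3) * ha2
  refine ⟨?_, ?_, ?_⟩
  · have h1 := base hEdgi a c (3 * b) d w (by linear_combination h) hw
    push_cast at h1
    rw [h3, hw'] at h1
    rw [hth]
    linear_combination h1
  · have h1 := base hEdgi a c (a + 3 * b) (3 * c + d) (w - c) (by linear_combination h)
      (by linear_combination hw)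
    have h2 : (3 * c + d) ^ 2 - 1 = 3 * (3 * c ^ 2 + 2 * c * d - α + 6 * (b * c) + 3 * w ^ 2) := by
      have hd : d = a - 3 * w := by linear_combination -hw
      have e1 : d ^ 2 - 1 = 3 * (-α + 6 * (b * c) + 3 * w ^ 2) := by
        rw [hd]
        linear_combination hα - 6 * haw
      linear_combination e1
    have h4 : th (3 * c + d) = -(α : ZMod 3) - a * c := by
      rw [th_eq _ _ h2]
      push_cast
      rw [← hadeq]
      have h6 : (6 : ZMod 3) = 0 := by decide
      rw [h3, h6]
      have h2' : (2 : ZMod 3) = -1 := by decide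
      rw [h2']
      ring
    push_cast at h1
    rw [h3, hw'] at h1
    rw [hth, h4]
    linear_combination h1 - (c : ZMod 3) ^ 2 * ha2 - (α : ZMod 3) * ha2 +
      (a : ZMod 3) * c * h3
  · have h1 := base hEdgi a c (3 * b - a) (d - 3 * c) (w + c) (by linear_combination h)
      (by linear_combination hw)
    have h2 : (d - 3 * c) ^ 2 - 1 = 3 * (3 * c ^ 2 - 2 * c * d - α + 6 * (b * c) + 3 * w ^ 2) := by
      have hd : d = a - 3 * w := by linear_combination -hw
      have e1 : d ^ 2 - 1 = 3 * (-α + 6 * (b * c) + 3 * w ^ 2) := by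
        rw [hd]
        linear_combination hα - 6 * haw
      linear_combination e1
    have h4 : th (d - 3 * c) = -(α : ZMod 3) + a * c := by
      rw [th_eq _ _ h2]
      push_cast
      rw [← hadeq]
      have h6 : (6 : ZMod 3) = 0 := by decide
      rw [h3, h6]
      have h2' : (2 : ZMod 3) = -1 := by decide
      rw [h2']
      ring
    push_cast at h1
    rw [h3, hw'] at h1
    rw [hth, h4]
    linear_combination h1 + (c : ZMod 3) ^ 2 * ha2 + (α : ZMod 3) * ha2 +
      (a : ZMod 3) * c * h3

end Pool.Agent.Helper26.T3
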